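import Pool.Agent.helper23.CO.SpecB

open Finset Filter Topology

namespace CO

open CU

lemma CHA_card (d n : ℕ) [NeZero n] : (Fintype.card (Site d n) : ℝ) = (n : ℝ) ^ d := by
  simp [Site, ZMod.card]

section ave
variable {V : Type} [Fintype V] [DecidableEq V]

lemma CHA_ex_add (K : V → V → ℝ) (g : V → ℝ) (f1 f2 : (V → Bool) → ℝ) :
    ex K g (fun σ => f1 σ + f2 σ) = ex K g f1 + ex K g f2 := by
  unfold ex
  rw [← add_div, ← Finset.sum_add_distrib]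
  congr 1
  refine Finset.sum_congr rfl fun σ _ => ?_
  ring

lemma CHA_ex_mul (K : V → V → ℝ) (g : V → ℝ) (c : ℝ) (f : (V → Bool) → ℝ) :
    ex K g (fun σ => c * f σ) = c * ex K g f := by
  unfold ex
  rw [mul_div_assoc', Finset.mul_sum]
  congr 1
  refine Finset.sum_congr rfl fun σ _ => ?_
  ring

lemma CHA_ex_sum {ι : Type*} (s : Finset ι) (K : V → V → ℝ) (g : V → ℝ) (f : ι → (V → Bool) → ℝ) :
    ex K g (fun σ => ∑ i ∈ s, f i σ) = ∑ i ∈ s, ex K g (f i) := by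
  unfold ex
  rw [← Finset.sum_div]
  congr 1
  rw [Finset.sum_comm]
  refine Finset.sum_congr rfl fun σ _ => ?_
  rw [Finset.mul_sum]

lemma CHA_ex_abs (K : V → V → ℝ) (g : V → ℝ) (f : (V → Bool) → ℝ) (h : ∀ σ, |f σ| ≤ 1) : |ex K g f| ≤ 1 := by
  unfold ex
  have hZ : 0 < ∑ σ : V → Bool, Real.exp (CWM.HH K g σ) := Finset.sum_pos (fun σ _ => Real.exp_pos _) ⟨fun _ => true, Finset.mem_univ _⟩
  rw [abs_div, abs_of_pos hZ, div_le_one hZ]
  refine le_trans (Finset.abs_sum_le_sum_abs _ _) (Finset.sum_le_sum fun σ _ => ?_)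
  rw [abs_mul, abs_of_pos (Real.exp_pos _)]
  exact mul_le_of_le_one_right (Real.exp_pos _).le (h σ)

end ave

variable {d n : ℕ} [NeZero n]

/-- shift the second variable -/
lemma CHA_shift (F : Site d n → ℝ) (x : Site d n) : (∑ y, F (y - x)) = ∑ z, F z :=
  Fintype.sum_equiv (Equiv.subRight x) _ _ fun _ => rfl

lemma CHA_HN (hTRI : TRI_stmt) (b : ℝ) (J : Site d n → ℝ) :
    ex (KT b J) (fun _ => (0 : ℝ)) (fun σ : Conf d n => HN σ) = (Fintype.card (Site d n) : ℝ) * ∑ i : Fin d, cT b J 0 (ev i) := by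
  obtain ⟨h1, -, -, -⟩ := hTRI d n b 0 J
  unfold HN
  rw [CHA_ex_sum]
  have h2 : ∀ x ∈ (univ : Finset (Site d n)), ex (KT b J) (fun _ => (0 : ℝ)) (fun σ : Conf d n => ∑ i : Fin d, sg (σ x) * sg (σ (x + ev i))) =
      ∑ i : Fin d, cT b J 0 (ev i) := by
    intro x _
    rw [CHA_ex_sum]
    refine Finset.sum_congr rfl fun i _ => ?_
    have h3 := h1 x (x + ev i)
    rw [add_sub_cancel_left] at h3
    exact h3
  rw [Finset.sum_congr rfl h2, Finset.sum_const, nsmul_eq_mul, Finset.card_univ]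

lemma CHA_Qf (hTRI : TRI_stmt) (b : ℝ) (J k : Site d n → ℝ) :
    ex (KT b J) (fun _ => (0 : ℝ)) (fun σ : Conf d n => Qf k σ) = ∑ z : Site d n, k z * cT b J 0 z := by
  obtain ⟨h1, -, -, -⟩ := hTRI d n b 0 J
  have hN : (0 : ℝ) < (Fintype.card (Site d n) : ℝ) := by exact_mod_cast Fintype.card_pos
  have e1 : (fun σ : Conf d n => Qf k σ) = fun σ : Conf d n => (1 / (Fintype.card (Site d n) : ℝ)) *
      ∑ x : Site d n, ∑ y : Site d n, k (y - x) * (sg (σ x) * sg (σ y)) := by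
    funext σ
    unfold Qf
    ring
  rw [e1, CHA_ex_mul, CHA_ex_sum]
  have h2 : ∀ x ∈ (univ : Finset (Site d n)), ex (KT b J) (fun _ => (0 : ℝ)) (fun σ : Conf d n => ∑ y : Site d n, k (y - x) * (sg (σ x) * sg (σ y))) =
      ∑ z : Site d n, k z * cT b J 0 z := by
    intro x _
    rw [CHA_ex_sum, ← CHA_shift (fun z => k z * cT b J 0 z) x]
    refine Finset.sum_congr rfl fun y _ => ?_
    rw [CHA_ex_mul]
    have h3 := h1 x y
    unfold c2 at h3
    rw [h3]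
  rw [Finset.sum_congr rfl h2, Finset.sum_const, nsmul_eq_mul, Finset.card_univ]
  field_simp

lemma CHA_M2 (hTRI : TRI_stmt) (b : ℝ) (J : Site d n → ℝ) :
    ex (KT b J) (fun _ => (0 : ℝ)) (fun σ : Conf d n => (Mg σ / (Fintype.card (Site d n) : ℝ)) ^ 2) =
      (∑ z : Site d n, cT b J 0 z) / (Fintype.card (Site d n) : ℝ) := by
  have hN : (0 : ℝ) < (Fintype.card (Site d n) : ℝ) := by exact_mod_cast Fintype.card_pos
  have e1 : (fun σ : Conf d n => (Mg σ / (Fintype.card (Site d n) : ℝ)) ^ 2) = fun σ : Conf d n => (1 / (Fintype.card (Site d n) : ℝ)) *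
      Qf (fun _ => 1) σ := by
    funext σ
    unfold Qf Mg
    rw [div_pow, pow_two, Finset.sum_mul_sum]
    simp only [one_mul]
    field_simp
  rw [e1, CHA_ex_mul, CHA_Qf hTRI]
  simp only [one_mul]
  ring

/-- expectation of `Yk` -/
lemma CHA_Yk (hTRI : TRI_stmt) (b : ℝ) (J k : Site d n → ℝ) (a r : ℝ) :
    ex (KT b J) (fun _ => (0 : ℝ)) (fun σ : Conf d n => Yk k a r σ) =
      (n : ℝ) ^ (d - 1) * (a * (∑ z : Site d n, k z * cT b J 0 z) + r * ((∑ z : Site d n, cT b J 0 z) / (Fintype.card (Site d n) : ℝ))) := by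
  unfold Yk
  rw [CHA_ex_mul, CHA_ex_add, CHA_ex_mul, CHA_ex_mul, CHA_Qf hTRI, CHA_M2 hTRI]

/-- the coupling -/
noncomputable def CHA_J (k : Site d n → ℝ) (a r s : ℝ) (z : Site d n) : ℝ :=
  s * ((n : ℝ) ^ (d - 1) * (a * k z + r / (Fintype.card (Site d n) : ℝ)) / (Fintype.card (Site d n) : ℝ))

lemma CHA_wt (hHHT : HHT_stmt) (k : Site d n → ℝ) (a r s b : ℝ) (f : Conf d n → ℝ) :
    (∑ σ : Conf d n, Real.exp (b * HN σ + s * Yk k a r σ) * f σ) / (∑ σ : Conf d n, Real.exp (b * HN σ + s * Yk k a r σ)) =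
      ex (KT b (CHA_J k a r s)) (fun _ => (0 : ℝ)) f := by
  unfold ex
  have h1 : ∀ σ : Conf d n, CWM.HH (KT b (CHA_J k a r s)) (fun _ => (0 : ℝ)) σ = b * HN σ + s * Yk k a r σ := by
    intro σ
    have := (hHHT d n b 0 (fun _ => 0) σ).2 k a r s
    exact this
  simp only [h1]

lemma CHA_J_le (k : Site d n → ℝ) (a s : ℝ) (ha : 0 ≤ a) (hs : 0 ≤ s) (hk : ∀ z, 0 ≤ k z) (z : Site d n) :
    |CHA_J k a (-1) s z| ≤ CHA_J k a 1 s z ∧ 0 ≤ CHA_J k a 1 s z := by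
  have hN : (0 : ℝ) < (Fintype.card (Site d n) : ℝ) := by exact_mod_cast Fintype.card_pos
  unfold CHA_J
  have h0 : 0 ≤ a * k z := mul_nonneg ha (hk z)
  have h1 : |a * k z + -1 / (Fintype.card (Site d n) : ℝ)| ≤ a * k z + 1 / (Fintype.card (Site d n) : ℝ) := by
    rw [abs_le]
    have h2 : 0 < 1 / (Fintype.card (Site d n) : ℝ) := by positivity
    have h3 : -1 / (Fintype.card (Site d n) : ℝ) = - (1 / (Fintype.card (Site d n) : ℝ)) := by ring
    rw [h3]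
    constructor <;> linarith
  constructor
  · rw [abs_mul, abs_div, abs_mul, abs_of_nonneg hs, abs_of_pos hN, abs_of_nonneg (by positivity : (0 : ℝ) ≤ (n : ℝ) ^ (d - 1))]
    refine mul_le_mul_of_nonneg_left ?_ hs
    refine div_le_div_of_nonneg_right ?_ hN.le
    exact mul_le_mul_of_nonneg_left h1 (by positivity)
  · have := abs_nonneg (a * k z + -1 / (Fintype.card (Site d n) : ℝ))
    have h4 : 0 ≤ a * k z + 1 / (Fintype.card (Site d n) : ℝ) := le_trans this h1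
    positivity

omit [NeZero n] in
lemma CHA_KT_mono (b b' : ℝ) (J J' : Site d n → ℝ) (hb : 0 ≤ b) (hbb : b ≤ b') (hJ : ∀ z, |J z| ≤ J' z) (x y : Site d n) :
    |KT b J x y| ≤ KT b' J' x y := by
  unfold KT
  have e0 : 0 ≤ (∑ i : Fin d, if y = x + ev i then (1 : ℝ) else 0) := by
    apply Finset.sum_nonneg
    intro i _
    split_ifs
    · exact zero_le_one
    · exact le_refl _
  have e1 : 0 ≤ b * (∑ i : Fin d, if y = x + ev i then (1 : ℝ) else 0) := mul_nonneg hb e0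
  calc |b * (∑ i : Fin d, if y = x + ev i then (1 : ℝ) else 0) + J (y - x)|
      ≤ |b * (∑ i : Fin d, if y = x + ev i then (1 : ℝ) else 0)| + |J (y - x)| := abs_add_le _ _
    _ ≤ _ := by
      rw [abs_of_nonneg e1]
      have := hJ (y - x)
      have h2 := mul_le_mul_of_nonneg_right hbb e0
      linarith

/-- the derivative inequality -/
lemma CHA_der (hLPI : LPI_stmt) (hTRI : TRI_stmt) (hRAT : RAT_stmt) (hCBX : CBX_stmt)
    (hn : 3 ≤ n) (hd : 1 ≤ d) (b0 b μ q a s : ℝ) (k : Site d n → ℝ) (hμ : 0 < μ) (hs : 0 ≤ s) (hb0 : 0 ≤ b0) (hbb : b0 ≤ b) (ha : 0 ≤ a)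
    (hk : ∀ z, 0 ≤ k z) (hc : ∀ x : Site d n, μ ^ 2 ≤ cT b0 (fun _ => 0) 0 x)
    (hq : q ≤ (∑ x : Site d n, cT b0 (fun _ => 0) 0 x) / (Fintype.card (Site d n) : ℝ)) :
    2 * q * (n : ℝ) ^ (d - 1) ≤
      ex (KT b (CHA_J k a 1 s)) (fun _ => (0 : ℝ)) (fun σ => d / μ ^ 4 * HN σ + Yk k a 1 σ) -
      ex (KT b (CHA_J k a (-1) s)) (fun _ => (0 : ℝ)) (fun σ => d / μ ^ 4 * HN σ + Yk k a (-1) σ) := by
  have hN : (0 : ℝ) < (Fintype.card (Site d n) : ℝ) := by exact_mod_cast Fintype.card_pos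
  have hb : 0 ≤ b := le_trans hb0 hbb
  obtain ⟨-, hA2, -⟩ := hLPI (Site d n) (KT b (CHA_J k a 1 s)) (KT b (CHA_J k a (-1) s)) (fun _ => 0) (fun _ => 0)
    (CHA_KT_mono b b _ _ hb le_rfl fun z => (CHA_J_le k a s ha hs hk z).1) (fun _ => by simp)
  obtain ⟨-, hB2, -⟩ := hLPI (Site d n) (KT b (CHA_J k a 1 s)) (KT b0 fun _ => 0) (fun _ => 0) (fun _ => 0)
    (CHA_KT_mono b0 b _ _ hb0 hbb fun z => by rw [abs_zero]; exact (CHA_J_le k a s ha hs hk z).2) (fun _ => by simp)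
  have hc1 : ∀ x : Site d n, cT b0 (fun _ => 0) 0 x ≤ cT b (CHA_J k a 1 s) 0 x := fun x => le_trans (le_abs_self _) (hB2 0 x)
  have hc2 : ∀ x : Site d n, cT b (CHA_J k a (-1) s) 0 x ≤ cT b (CHA_J k a 1 s) 0 x := fun x => le_trans (le_abs_self _) (hA2 0 x)
  have hc3 : ∀ x : Site d n, cT b (CHA_J k a 1 s) 0 x ≤ 1 := by
    intro x
    refine le_trans (le_abs_self _) (CHA_ex_abs _ _ _ ?_)
    intro σ
    unfold sg
    split_ifs <;> simp
  obtain ⟨hD0, hR⟩ := hRAT d n hn b 0 0 μ (CHA_J k a 1 s) (CHA_J k a (-1) s) hb hμ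
    (fun z => (CHA_J_le k a s ha hs hk z).1) (by simp) (fun x => le_trans (hc x) (hc1 x))
  obtain ⟨-, -, hX1, hX2⟩ := hCBX d n 0
  rw [CHA_ex_add, CHA_ex_add, CHA_ex_mul, CHA_ex_mul, CHA_HN hTRI, CHA_HN hTRI, CHA_Yk hTRI, CHA_Yk hTRI]
  have hDe : (∑ i : Fin d, (cT b (CHA_J k a 1 s) 0 (ev i) - cT b (CHA_J k a (-1) s) 0 (ev i))) =
      (∑ i : Fin d, cT b (CHA_J k a 1 s) 0 (ev i)) - ∑ i : Fin d, cT b (CHA_J k a (-1) s) 0 (ev i) := Finset.sum_sub_distrib _ _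
  rw [hDe] at hD0 hR
  set A1 := ∑ i : Fin d, cT b (CHA_J k a 1 s) 0 (ev i) with hA1
  set A2 := ∑ i : Fin d, cT b (CHA_J k a (-1) s) 0 (ev i) with hA2'
  have hμ4 : 0 < μ ^ 4 := by positivity
  -- the quadratic form
  have hQ : (∑ z : Site d n, k z * cT b (CHA_J k a (-1) s) 0 z) ≤ ∑ z : Site d n, k z * cT b (CHA_J k a 1 s) 0 z :=
    Finset.sum_le_sum fun z _ => mul_le_mul_of_nonneg_left (hc2 z) (hk z)
  -- magnetisation
  have hM1 : q ≤ (∑ z : Site d n, cT b (CHA_J k a 1 s) 0 z) / (Fintype.card (Site d n) : ℝ) :=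
    le_trans hq (div_le_div_of_nonneg_right (Finset.sum_le_sum fun z _ => hc1 z) hN.le)
  have hpt : ∀ z : Site d n, cT b (CHA_J k a 1 s) 0 z - d * n * (A1 - A2) / μ ^ 4 ≤ cT b (CHA_J k a (-1) s) 0 z := by
    intro z
    have h1 := hR z
    have h2 : cT b (CHA_J k a 1 s) 0 z * (nrm z * (A1 - A2) / μ ^ 4) ≤ d * n * (A1 - A2) / μ ^ 4 := by
      have h3 : 0 ≤ nrm z * (A1 - A2) / μ ^ 4 := div_nonneg (mul_nonneg (hX2 z) hD0) hμ4.le
      have h4 : nrm z * (A1 - A2) / μ ^ 4 ≤ d * n * (A1 - A2) / μ ^ 4 := by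
        refine div_le_div_of_nonneg_right (mul_le_mul_of_nonneg_right ?_ hD0) hμ4.le
        have h5 := hX1 z
        have h6 : (0 : ℝ) ≤ (d : ℝ) * n := by positivity
        linarith
      exact le_trans (mul_le_of_le_one_left h3 (hc3 z)) h4
    linarith
  have hM2 : (∑ z : Site d n, cT b (CHA_J k a 1 s) 0 z) / (Fintype.card (Site d n) : ℝ) - d * n * (A1 - A2) / μ ^ 4 ≤
      (∑ z : Site d n, cT b (CHA_J k a (-1) s) 0 z) / (Fintype.card (Site d n) : ℝ) := by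
    have h1 : (∑ z : Site d n, (cT b (CHA_J k a 1 s) 0 z - d * n * (A1 - A2) / μ ^ 4)) ≤ ∑ z : Site d n, cT b (CHA_J k a (-1) s) 0 z :=
      Finset.sum_le_sum fun z _ => hpt z
    rw [Finset.sum_sub_distrib, Finset.sum_const, nsmul_eq_mul, Finset.card_univ] at h1
    rw [le_div_iff₀ hN, sub_mul, div_mul_cancel₀ _ hN.ne']
    linarith
  have hNn : (Fintype.card (Site d n) : ℝ) = (n : ℝ) ^ (d - 1) * n := by
    rw [CHA_card, ← pow_succ]
    congr 1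
    omega
  have hP : 0 < (n : ℝ) ^ (d - 1) := by
    have : (0 : ℝ) < n := by exact_mod_cast (by omega : 0 < n)
    positivity
  set P := (n : ℝ) ^ (d - 1) with hPd
  set Q1 := ∑ z : Site d n, k z * cT b (CHA_J k a 1 s) 0 z
  set Q2 := ∑ z : Site d n, k z * cT b (CHA_J k a (-1) s) 0 z
  set m1 := (∑ z : Site d n, cT b (CHA_J k a 1 s) 0 z) / (Fintype.card (Site d n) : ℝ)
  set m2 := (∑ z : Site d n, cT b (CHA_J k a (-1) s) 0 z) / (Fintype.card (Site d n) : ℝ)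
  rw [hNn]
  have h5 : 0 ≤ P * (a * (Q1 - Q2)) := mul_nonneg hP.le (mul_nonneg ha (by linarith))
  have h6 : P * (2 * q - d * n * (A1 - A2) / μ ^ 4) ≤ P * (m1 + m2) := by
    refine mul_le_mul_of_nonneg_left ?_ hP.le
    linarith
  have h7 : d / μ ^ 4 * (P * n * A1) - d / μ ^ 4 * (P * n * A2) = P * (d * n * (A1 - A2) / μ ^ 4) := by
    field_simp
  have h8 : d / μ ^ 4 * (P * ↑n * A1) + P * (a * Q1 + 1 * m1) - (d / μ ^ 4 * (P * ↑n * A2) + P * (a * Q2 + -1 * m2)) =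
      (d / μ ^ 4 * (P * n * A1) - d / μ ^ 4 * (P * n * A2)) + P * (a * (Q1 - Q2)) + P * (m1 + m2) := by ring
  rw [h8, h7]
  have h9 : P * (2 * q - d * n * (A1 - A2) / μ ^ 4) = 2 * q * P - P * (d * n * (A1 - A2) / μ ^ 4) := by ring
  linarith

theorem CHA (hLPI : LPI_stmt) (hGK2 : GK2_stmt) (hTRI : TRI_stmt) (hHHT : HHT_stmt) (hLZ : LZ_stmt) (hRAT : RAT_stmt) (hCBX : CBX_stmt) : CHA_stmt := by
  intro d n _ hn hd β θ μ q a U k hμ hθ hv ha hk hc hq hU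
  have _ := hGK2
  set v : ℝ := d / μ ^ 4 with hvd
  have hv0 : 0 ≤ v := by positivity
  -- the four systems
  obtain ⟨hF1, -⟩ := hLZ (Conf d n) (fun σ => (β - v * θ) * HN σ) (fun σ => v * HN σ + Yk k a 1 σ)
  obtain ⟨hF2, -⟩ := hLZ (Conf d n) (fun σ => (β - v * θ) * HN σ) (fun σ => v * HN σ + Yk k a (-1) σ)
  obtain ⟨-, hF3⟩ := hLZ (Conf d n) (fun σ => β * HN σ) (fun σ => Yk k a 1 σ)
  have he : ∀ (r t : ℝ) (σ : Conf d n), (β - v * θ) * HN σ + t * (v * HN σ + Yk k a r σ) = (β - v * (θ - t)) * HN σ + t * Yk k a r σ := by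
    intro r t σ
    ring
  set g : ℝ → ℝ := fun t => Real.log (∑ σ : Conf d n, Real.exp ((β - v * θ) * HN σ + t * (v * HN σ + Yk k a 1 σ))) -
    Real.log (∑ σ : Conf d n, Real.exp ((β - v * θ) * HN σ + t * (v * HN σ + Yk k a (-1) σ))) with hg
  have hgd : ∀ t : ℝ, HasDerivAt g
      (ex (KT (β - v * (θ - t)) (CHA_J k a 1 t)) (fun _ => (0 : ℝ)) (fun σ => v * HN σ + Yk k a 1 σ) -
      ex (KT (β - v * (θ - t)) (CHA_J k a (-1) t)) (fun _ => (0 : ℝ)) (fun σ => v * HN σ + Yk k a (-1) σ)) t := by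
    intro t
    have h1 := hF1 t
    have h2 := hF2 t
    rw [← CHA_wt hHHT, ← CHA_wt hHHT]
    simp only [he] at h1 h2 hg
    rw [hg]
    exact h1.sub h2
  have hmono : ∀ t ∈ Set.Icc (0 : ℝ) θ, 2 * q * (n : ℝ) ^ (d - 1) ≤ (ex (KT (β - v * (θ - t)) (CHA_J k a 1 t)) (fun _ => (0 : ℝ)) (fun σ => v * HN σ + Yk k a 1 σ) -
      ex (KT (β - v * (θ - t)) (CHA_J k a (-1) t)) (fun _ => (0 : ℝ)) (fun σ => v * HN σ + Yk k a (-1) σ)) := by
    intro t ht
    refine CHA_der hLPI hTRI hRAT hCBX hn hd (β - v * θ) (β - v * (θ - t)) μ q a t k hμ ht.1 (by linarith) ?_ ha hk hc hq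
    have : 0 ≤ v * t := mul_nonneg hv0 ht.1
    linarith
  have hgθ : g 0 + 2 * q * (n : ℝ) ^ (d - 1) * θ ≤ g θ := by
    have h1 : MonotoneOn (fun t => g t - 2 * q * (n : ℝ) ^ (d - 1) * t) (Set.Icc 0 θ) := by
      refine monotoneOn_of_deriv_nonneg (convex_Icc 0 θ) ?_ ?_ ?_
      · intro t _
        exact ((hgd t).continuousAt.sub (by fun_prop)).continuousWithinAt
      · intro t _
        exact ((hgd t).sub ((hasDerivAt_id t).const_mul _)).differentiableAt.differentiableWithinAt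
      · intro t ht
        rw [interior_Icc] at ht
        have h2 := ((hgd t).sub ((hasDerivAt_id t).const_mul (2 * q * (n : ℝ) ^ (d - 1)))).deriv
        have h3 := hmono t (Set.Ioo_subset_Icc_self ht)
        have h4 : deriv (fun t => g t - 2 * q * (n : ℝ) ^ (d - 1) * t) t = _ := h2
        rw [h4]
        linarith
    have h5 := h1 (Set.left_mem_Icc.2 hθ) (Set.right_mem_Icc.2 hθ) hθ
    simp only [mul_zero, sub_zero] at h5
    linarith
  have hg0 : g 0 = 0 := by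
    rw [hg]
    simp
  -- the last step
  have h1 := (hF3 θ hθ).2
  rw [CHA_wt hHHT] at h1
  have hU' : ex (KT β (CHA_J k a 1 θ)) (fun _ => (0 : ℝ)) (fun σ => Yk k a 1 σ) ≤ (n : ℝ) ^ (d - 1) * U := by
    unfold Yk
    rw [CHA_ex_mul]
    refine mul_le_mul_of_nonneg_left ?_ (by positivity)
    simp only [one_mul]
    exact hU
  have hZ : 0 < ∑ σ : Conf d n, Real.exp (β * HN σ) := Finset.sum_pos (fun σ _ => Real.exp_pos _) ⟨fun _ => true, Finset.mem_univ _⟩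
  have hZ2 : 0 < ∑ σ : Conf d n, Real.exp (β * HN σ + θ * Yk k a (-1) σ) := Finset.sum_pos (fun σ _ => Real.exp_pos _) ⟨fun _ => true, Finset.mem_univ _⟩
  have hex : ex (KT β fun _ => 0) (fun _ => 0) (fun σ : Conf d n => Real.exp (θ * Yk k a (-1) σ)) =
      (∑ σ : Conf d n, Real.exp (β * HN σ + θ * Yk k a (-1) σ)) / ∑ σ : Conf d n, Real.exp (β * HN σ) := by
    unfold ex
    have h2 : ∀ σ : Conf d n, CWM.HH (KT β fun _ => 0) (fun _ => 0) σ = β * HN σ := by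
      intro σ
      have := (hHHT d n β 0 (fun _ => 0) σ).1
      rw [this]
      simp
    simp only [h2, Real.exp_add]
  rw [hex, ← Real.exp_log (div_pos hZ2 hZ), Real.exp_le_exp, Real.log_div hZ2.ne' hZ.ne']
  have hgθ2 : g θ = Real.log (∑ σ : Conf d n, Real.exp (β * HN σ + θ * Yk k a 1 σ)) - Real.log (∑ σ : Conf d n, Real.exp (β * HN σ + θ * Yk k a (-1) σ)) := by
    rw [hg]
    simp only [he, sub_self, mul_zero, sub_zero]
  have h3 : θ * ex (KT β (CHA_J k a 1 θ)) (fun _ => (0 : ℝ)) (fun σ => Yk k a 1 σ) ≤ θ * ((n : ℝ) ^ (d - 1) * U) :=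
    mul_le_mul_of_nonneg_left hU' hθ
  have h4 : θ * ((n : ℝ) ^ (d - 1) * (U - 2 * q)) = θ * ((n : ℝ) ^ (d - 1) * U) - 2 * q * (n : ℝ) ^ (d - 1) * θ := by ring
  rw [h4]
  linarith

end CO
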