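import Pool.Agent.helper23.CO.SpecB

open Finset Filter Topology

namespace CO

open CU

lemma RAT_step {n : ℕ} [NeZero n] (a : ZMod n) (ha : a ≠ 0) :
    (a - 1).valMinAbs.natAbs + 1 ≤ a.valMinAbs.natAbs ∨
    (a + 1).valMinAbs.natAbs + 1 ≤ a.valMinAbs.natAbs := by
  have hs := (ZMod.valMinAbs_spec a a.valMinAbs).1 rfl
  obtain ⟨h1, h2, h3⟩ := hs
  have hn : 0 < n := Nat.pos_of_ne_zero (NeZero.ne n)
  have hv : a.valMinAbs ≠ 0 := by
    intro h
    exact ha ((ZMod.valMinAbs_eq_zero a).1 h)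
  rcases lt_or_gt_of_ne hv with h | h
  · right
    have h4 : (a + 1).valMinAbs = a.valMinAbs + 1 := by
      rw [ZMod.valMinAbs_spec]
      refine ⟨?_, ?_, ?_⟩
      · push_cast
        rfl
      · omega
      · omega
    rw [h4]
    omega
  · left
    have h4 : (a - 1).valMinAbs = a.valMinAbs - 1 := by
      rw [ZMod.valMinAbs_spec]
      refine ⟨?_, ?_, ?_⟩
      · push_cast
        rfl
      · omega
      · omega
    rw [h4]
    omega

/-- the sum of the absolute values of the coordinates -/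
lemma RAT_walk {d n : ℕ} [NeZero n] (x : Site d n) (hx : x ≠ 0) : ∃ i : Fin d,
    (∑ k, (((x - ev i : Site d n) k).valMinAbs.natAbs) + 1 ≤ ∑ k, (x k).valMinAbs.natAbs) ∨
    (∑ k, (((x + ev i : Site d n) k).valMinAbs.natAbs) + 1 ≤ ∑ k, (x k).valMinAbs.natAbs) := by
  have h1 : ∃ i, x i ≠ 0 := by
    by_contra h
    push Not at h
    exact hx (funext h)
  obtain ⟨i, hi⟩ := h1
  refine ⟨i, ?_⟩
  rcases RAT_step (x i) hi with h | h
  · left
    rw [← Finset.add_sum_erase _ _ (Finset.mem_univ i), ← Finset.add_sum_erase _ (fun k => (x k).valMinAbs.natAbs) (Finset.mem_univ i)]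
    have h2 : ∑ k ∈ univ.erase i, ((x - ev i : Site d n) k).valMinAbs.natAbs = ∑ k ∈ univ.erase i, (x k).valMinAbs.natAbs := by
      refine Finset.sum_congr rfl fun k hk => ?_
      have hk' : k ≠ i := Finset.ne_of_mem_erase hk
      have : (x - ev i : Site d n) k = x k := by
        show x k - (ev i : Site d n) k = x k
        unfold ev
        rw [Pi.single_eq_of_ne hk', sub_zero]
      rw [this]
    have h3 : (x - ev i : Site d n) i = x i - 1 := by
      show x i - (ev i : Site d n) i = x i - 1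
      unfold ev
      rw [Pi.single_eq_same]
    rw [h2, h3]
    omega
  · right
    rw [← Finset.add_sum_erase _ _ (Finset.mem_univ i), ← Finset.add_sum_erase _ (fun k => (x k).valMinAbs.natAbs) (Finset.mem_univ i)]
    have h2 : ∑ k ∈ univ.erase i, ((x + ev i : Site d n) k).valMinAbs.natAbs = ∑ k ∈ univ.erase i, (x k).valMinAbs.natAbs := by
      refine Finset.sum_congr rfl fun k hk => ?_
      have hk' : k ≠ i := Finset.ne_of_mem_erase hk
      have : (x + ev i : Site d n) k = x k := by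
        show x k + (ev i : Site d n) k = x k
        unfold ev
        rw [Pi.single_eq_of_ne hk', add_zero]
      rw [this]
    have h3 : (x + ev i : Site d n) i = x i + 1 := by
      show x i + (ev i : Site d n) i = x i + 1
      unfold ev
      rw [Pi.single_eq_same]
    rw [h2, h3]
    omega

lemma RAT_arith (c1x c2x c1y c2y D M m : ℝ) (hM : 0 < M) (hD : 0 ≤ D) (h1 : M ≤ c1x) (h2 : M ≤ c1y)
    (h3 : |c1y * c2x - c2y * c1x| ≤ D) (h4 : c1y * (1 - m * D / M ^ 2) ≤ c2y) :
    c1x * (1 - (m + 1) * D / M ^ 2) ≤ c2x := by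
  have hx : 0 < c1x := lt_of_lt_of_le hM h1
  have hy : 0 < c1y := lt_of_lt_of_le hM h2
  have h5 : c2y * c1x - D ≤ c1y * c2x := by
    have := (abs_le.1 h3).1
    linarith
  have h6 : c1y * (1 - m * D / M ^ 2) * c1x ≤ c2y * c1x := mul_le_mul_of_nonneg_right h4 hx.le
  have h7 : D ≤ c1y * (c1x * (D / M ^ 2)) := by
    have h8 : M * (M * (D / M ^ 2)) ≤ c1y * (c1x * (D / M ^ 2)) := by
      have h9 : 0 ≤ D / M ^ 2 := by positivity
      exact mul_le_mul h2 (mul_le_mul_of_nonneg_right h1 h9) (by positivity) hy.le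
    have h9 : M * (M * (D / M ^ 2)) = D := by
      field_simp
    linarith
  have h8 : c1y * (c1x * (1 - (m + 1) * D / M ^ 2)) ≤ c1y * c2x := by
    have e1 : c1y * (c1x * (1 - (m + 1) * D / M ^ 2)) = c1y * (1 - m * D / M ^ 2) * c1x - c1y * (c1x * (D / M ^ 2)) := by ring
    rw [e1]
    linarith
  exact le_of_mul_le_mul_left h8 hy

theorem RAT (hLPI : LPI_stmt) (hTRI : TRI_stmt) : RAT_stmt := by
  intro d n _ hn b h1 h2 μ J1 J2 hb hμ hJ hh hc
  have hK : ∀ x y : Site d n, |KT b J2 x y| ≤ KT b J1 x y := by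
    intro x y
    unfold KT
    have e1 : 0 ≤ b * (∑ i : Fin d, if y = x + ev i then (1 : ℝ) else 0) := by
      apply mul_nonneg hb
      apply Finset.sum_nonneg
      intro i _
      split_ifs
      · exact zero_le_one
      · exact le_refl _
    calc |b * (∑ i : Fin d, if y = x + ev i then (1 : ℝ) else 0) + J2 (y - x)|
        ≤ |b * (∑ i : Fin d, if y = x + ev i then (1 : ℝ) else 0)| + |J2 (y - x)| := abs_add_le _ _
      _ ≤ _ := by
        rw [abs_of_nonneg e1]
        have := hJ (y - x)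
        linarith
  obtain ⟨-, hL2, hL3⟩ := hLPI (Site d n) (KT b J1) (KT b J2) (fun _ => h1) (fun _ => h2) hK (fun _ => hh)
  obtain ⟨hT1, -, hT0, -⟩ := hTRI d n b h1 J1
  obtain ⟨hS1, -, hS0, -⟩ := hTRI d n b h2 J2
  have hD : ∀ i : Fin d, 0 ≤ cT b J1 h1 (ev i) - cT b J2 h2 (ev i) := by
    intro i
    have := hL2 0 (ev i)
    have h3 := le_trans (le_abs_self _) this
    unfold cT
    linarith
  have hD0 : 0 ≤ ∑ i : Fin d, (cT b J1 h1 (ev i) - cT b J2 h2 (ev i)) := Finset.sum_nonneg fun i _ => hD i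
  refine ⟨hD0, ?_⟩
  set D := ∑ i : Fin d, (cT b J1 h1 (ev i) - cT b J2 h2 (ev i)) with hDd
  have hstep : ∀ (x : Site d n) (i : Fin d), |cT b J1 h1 x * cT b J2 h2 (x + ev i) - cT b J2 h2 x * cT b J1 h1 (x + ev i)| ≤ D := by
    intro x i
    have h3 := hL3 x (x + ev i) 0
    rw [hT1 x (x + ev i), hS1 x (x + ev i)] at h3
    have e1 : x + ev i - x = ev i := by abel
    rw [e1] at h3
    have h4 : cT b J1 h1 (ev i) - cT b J2 h2 (ev i) ≤ D :=
      Finset.single_le_sum (f := fun i : Fin d => cT b J1 h1 (ev i) - cT b J2 h2 (ev i)) (fun j _ => hD j) (Finset.mem_univ i)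
    exact le_trans h3 h4
  have hM : 0 < μ ^ 2 := by positivity
  have hmain : ∀ (m : ℕ) (x : Site d n), (∑ k, (x k).valMinAbs.natAbs) ≤ m →
      cT b J1 h1 x * (1 - (m : ℝ) * D / (μ ^ 2) ^ 2) ≤ cT b J2 h2 x := by
    intro m
    induction m with
    | zero =>
      intro x hx
      have hx0 : x = 0 := by
        funext k
        have h3 : (x k).valMinAbs.natAbs = 0 := by
          have h4 : (x k).valMinAbs.natAbs ≤ ∑ k, (x k).valMinAbs.natAbs :=
            Finset.single_le_sum (f := fun k => (x k).valMinAbs.natAbs) (fun j _ => Nat.zero_le _) (Finset.mem_univ k)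
          omega
        have h5 : (x k).valMinAbs = 0 := Int.natAbs_eq_zero.1 h3
        exact (ZMod.valMinAbs_eq_zero _).1 h5
      rw [hx0, hT0, hS0]
      simp
    | succ m ih =>
      intro x hx
      by_cases hx0 : x = 0
      · rw [hx0, hT0, hS0]
        have : 0 ≤ ((m + 1 : ℕ) : ℝ) * D / (μ ^ 2) ^ 2 := by positivity
        linarith
      obtain ⟨i, h3 | h3⟩ := RAT_walk x hx0
      · have h4 := ih (x - ev i) (by omega)
        have h5 := hstep (x - ev i) i
        rw [sub_add_cancel] at h5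
        push_cast
        exact RAT_arith _ _ _ _ _ _ _ hM hD0 (hc x) (hc (x - ev i)) h5 h4
      · have h4 := ih (x + ev i) (by omega)
        have h5 := hstep x i
        push_cast
        refine RAT_arith _ _ (cT b J1 h1 (x + ev i)) (cT b J2 h2 (x + ev i)) _ _ _ hM hD0 (hc x) (hc (x + ev i)) ?_ h4
        rw [abs_sub_comm]
        have e1 : cT b J2 h2 (x + ev i) * cT b J1 h1 x - cT b J1 h1 (x + ev i) * cT b J2 h2 x =
          cT b J1 h1 x * cT b J2 h2 (x + ev i) - cT b J2 h2 x * cT b J1 h1 (x + ev i) := by ring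
        rw [e1]
        exact h5
  intro x
  have h3 := hmain (∑ k, (x k).valMinAbs.natAbs) x le_rfl
  have e1 : nrm x = ((∑ k, (x k).valMinAbs.natAbs : ℕ) : ℝ) := by
    unfold nrm
    push_cast
    rfl
  have e2 : μ ^ 4 = (μ ^ 2) ^ 2 := by ring
  rw [e1, e2]
  exact h3

end CO
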